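import Mathlib
import Pool.Agent.R233.CH.Concl
import Pool.Agent.R233.CH.Gaps

/-!
# A Cantor set in `ℂ²` whose rational hull has interior and equals its polynomial hull

Let `B` be the closed unit ball of `ℂ²`. Choose strictly plurisubharmonic functions `g_k`, whose
sign patterns separate the points of `B` and whose complex gradients near the sphere are independent
of the one of `‖x‖²`, and remove from `B` the gaps `{|g_k| < ε_k}`, where before the `k`-th gap is
removed the current body is dented by the amount `10 A_k ε_k²` along the gap. The dented body `Y`
is star-shaped, and every zero set of an entire function which meets the limit body `Y` meets the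
Cantor set `X` obtained in the limit: inside a gap such a zero set would have an isolated maximum,
with respect to a family of parabolic discs, of `-Φ_k + A_k g_k² / 2`. So `Y` lies in the rational
hull of `X`. A compact star-shaped set whose complement is covered by zero sets of polynomials
which miss it is polynomially convex, so the polynomial hull lies in the rational hull.
-/

set_option autoImplicit false

open Topology

namespace Pool.Agent.Results.MP_2a3b48_an.EqualHullsInterior

/-- There is a Cantor set `X ⊂ ℂ²` whose rational hull has nonempty interior and is equal to its
polynomial hull. -/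
theorem result :
    ∃ X : Set (Fin 2 → ℂ), Nonempty (X ≃ₜ cantorSet) ∧
      (interior {z : Fin 2 → ℂ | ∀ p : MvPolynomial (Fin 2) ℂ,
        MvPolynomial.eval z p ∈ (fun w => MvPolynomial.eval w p) '' X}).Nonempty ∧
      {z : Fin 2 → ℂ | ∀ p : MvPolynomial (Fin 2) ℂ,
        ‖MvPolynomial.eval z p‖ ≤ sSup ((fun w => ‖MvPolynomial.eval w p‖) '' X)} =
      {z : Fin 2 → ℂ | ∀ p : MvPolynomial (Fin 2) ℂ,
        MvPolynomial.eval z p ∈ (fun w => MvPolynomial.eval w p) '' X} :=
  Pool.Agent.R233.CH.concl_hulls Pool.Agent.R233.CH.existsGaps

end Pool.Agent.Results.MP_2a3b48_an.EqualHullsInterior
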